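import Pool.Agent.X249.MC.Sat
import Pool.Agent.X249.MC.InNP

/-!
# Matching Cut is NP-complete on graphs without `S_{2,2,2,2}` as a subgraph

A solution of 3SAT is coded by a nonconstant solution of constraints `x = y ∨ x = z`. A variable is
a chain of triangles: an edge together with a common neighbour of degree two of its ends cannot be
cut, and such a *thick* edge adds nothing to the legs of a spider, since two legs which use the same
thick edge meet. Every constraint is a vertex joined to the first variable by a thick edge and to
the other two by plain edges; a vertex has at most one cut edge, so one of the two is not cut. Every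
vertex is on at most three edges or thick edges, so the graph has no subgraph `S_{2,2,2,2}`.
-/

namespace Pool.Agent.Results.MP_12d0d1_lc.MatchingCutNPComplete

open Pool.Agent.NPC Pool.Agent.X249.MC

/-- Matching Cut is NP-complete on the graphs without `S_{2,2,2,2}` as a subgraph. -/
theorem result : InNPP MatchingCutSpiderFree ∧ NPHardP MatchingCutSpiderFree :=
  ⟨inNP, hard.toNPHardP⟩

end Pool.Agent.Results.MP_12d0d1_lc.MatchingCutNPComplete
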